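import Pool.Agent.Y168.LefK.Scroll

/-!
# Failure of the Lefschetz-type comparison of effective cones in every dimension `k ≥ 1`

`Y = Y_{k, r} = P(O + O(1)^r)` over `P^k`, a smooth projective variety of dimension `k + r`,
embedded in `P^k × P^{r (k + 1)}`; every ample class on `Y` is `A = O(a, b)|_Y` with `a, b ≥ 1`.
For `r ≥ k + 2` (so that `k < dim X / 2`), for every `d ≥ 1` and every member `X` of `|d A|` that does
not contain the section `S = P^k × {vertex}`, the push forward of the closed cone of effective
`k`-cycles of `X` is not the closed cone of effective `k`-cycles of `Y`.  For `k = 1` this is the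
negation of Q1.
-/

set_option autoImplicit false

namespace Pool.Agent.Results.MP_f4858a_ag.ScrollRigidSection

open MvPolynomial Pool.Agent.Y168.LefK

/-- Let `k ≥ 1`, `r ≥ k + 2` and `Y = Y_{k, r} ⊂ P^k × P^{r (k + 1)}`, let `a, b, d ≥ 1`.  The forms
`F` of bidegree `(d a, d b)` that do not vanish identically on the section `S ⊂ Y` form a non-empty
Zariski-open set; for each of them let `X = Y ∩ {F = 0} ∈ |d A|`, `A = O(a, b)|_Y`.

As `k ≤ r`, the classes `H₁^i · H₂^(k-i)` are a basis of `N^k(Y)`, so that `N_k(Y) = ℝ^{k+1}` by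
the intersection numbers `Z.δ`.  The class of `S` is in the closed cone of effective `k`-cycles
of `Y`.  Let `V` (in the role of `N_k(X)`) be any real normed space with classes `cl Z` of the
integral `k`-dimensional subvarieties `Z` of `X` and a continuous linear map `i : V → N_k(Y)` (in
the role of the push forward `i_*`) with `i (cl Z) = Z.δ`.  Then the class of `S` is not in the
image under `i` of the closed cone spanned by the classes `cl Z`. -/
theorem result (k r a b d : ℕ) (hk : 1 ≤ k) (_hr : k + 2 ≤ r) (_ha : 1 ≤ a) (_hb : 1 ≤ b)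
    (_hd : 1 ≤ d) :
    (∃ F ∈ forms k (SK k r) (d * a) (d * b),
      ∃ s : Fin (k + 1) → ℂ, eval (Sum.elim s (vertex k r)) F ≠ 0) ∧
    ∀ F ∈ forms k (SK k r) (d * a) (d * b),
      (∃ s : Fin (k + 1) → ℂ, eval (Sum.elim s (vertex k r)) F ≠ 0) →
      Pi.single (Fin.last k) (1 : ℝ) ∈
        closedCone (Set.range fun Z : Variety (scroll k r) => Z.δ) ∧
      ∀ (V : Type) [NormedAddCommGroup V] [NormedSpace ℝ V]
        (cl : Variety (insert F (scroll k r)) → V) (i : V →L[ℝ] (Fin (k + 1) → ℝ)),
        (∀ Z, i (cl Z) = Z.δ) →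
          Pi.single (Fin.last k) (1 : ℝ) ∉ i '' closedCone (Set.range cl) ∧
          i '' closedCone (Set.range cl) ≠
            closedCone (Set.range fun Z : Variety (scroll k r) => Z.δ) := by
  obtain ⟨l, rfl⟩ : ∃ l, k = l + 1 := ⟨k - 1, by omega⟩
  refine ⟨⟨sv 0 ^ (d * a) * xv none ^ (d * b), ?_, fun _ => 1, ?_⟩, ?_⟩
  · have := forms_mul (sv_pow_mem (k := l + 1) (κ := SK (l + 1) r) 0 (d * a))
      (forms_pow (xv_mem none) (d * b))
    simpa using this
  · simp [vertex]
  · rintro F - ⟨s, hs⟩
    have hFL : F ∉ secIdeal (vertex (l + 1) r) := by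
      intro h
      rw [mem_secIdeal] at h
      apply hs
      rw [eval_restr, h, map_zero]
    let S : Variety (scroll (l + 1) r) := secVariety (vertex_ne (l + 1) r) scroll_sec
    have hS : S.δ = Pi.single (Fin.last (l + 1)) (1 : ℝ) := by
      funext j
      change secδ (l + 1) j = _
      by_cases hj : j = Fin.last (l + 1)
      · subst hj; simp [secδ]
      · simp [secδ, hj]
    have key : ∀ (V : Type) [NormedAddCommGroup V] [NormedSpace ℝ V]
        (cl : Variety (insert F (scroll (l + 1) r)) → V)
        (i : V →L[ℝ] (Fin (l + 1 + 1) → ℝ)), (∀ Z, i (cl Z) = Z.δ) →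
        S.δ ∈ closedCone (Set.range fun Z : Variety (scroll (l + 1) r) => Z.δ) ∧
        S.δ ∉ i '' closedCone (Set.range cl) := by
      intro V _ _ cl i hi
      refine not_mem_image (Set.subset_insert F (scroll (l + 1) r)) S (Fin.last (l + 1))
        (Fin.castSucc (Fin.last l)) ?_ (fun Z => scroll_variety' Z.isVariety
          (fun f hf => Z.subset f (Set.mem_insert_of_mem _ hf))
          (Z.subset F (Set.mem_insert _ _)) hFL) (fun Z => Z.δ)
        (fun j => ContinuousLinearMap.proj j) (fun Z j => rfl) cl i hi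
      rw [hS, Pi.single_eq_same, Pi.single_eq_of_ne]
      · norm_num
      · intro h
        have := congrArg Fin.val h
        simp at this
    rw [← hS]
    refine ⟨(key (Fin (l + 1 + 1) → ℝ) (fun Z => Z.δ) (ContinuousLinearMap.id ℝ _)
      fun Z => rfl).1, fun V _ _ cl i hi => ?_⟩
    obtain ⟨h1, h2⟩ := key V cl i hi
    exact ⟨h2, fun heq => h2 (heq ▸ h1)⟩

end Pool.Agent.Results.MP_f4858a_ag.ScrollRigidSection
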